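import Pool.Agent.helper24.RB.Spec
import Pool.Agent.helper95.LE.ALLT
import Pool.Agent.helper33.LE.BDA

/-!
# Project RB (MP_baa4d7_al), row rb:BDR
-/

set_option autoImplicit false

namespace Pool.Agent.LE

open Pool.Agent.helper58.DC Pool.Agent.DI Pool.Agent.GR Pool.Agent.OB Pool.Agent.DR Pool.Agent.FI Pool.Agent.FI3 Pool.Agent.FI4 Pool.Agent.FI4C

theorem BDR_gdt (hLOA : LOA_stmt) {p : ℕ} {M : Ideal (integralClosure ℤ ℂ)} (hS : Setup p M) (hp2 : p ≠ 2)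
    {G : Type} [Group G] [Finite G] {D : Subgroup G} {x : G} {θ χ : G → ℂ} (hR : Rt p M D x θ χ) :
    GDT p D (TT M D θ) := by
  have hL := hLOA p M hS G D x θ χ hR
  exact ⟨hS.pr, hp2, hR.dfa.pgrp, hR.com, cz_le_TT, fun t ht => ht.1, hL.bet⟩

theorem BDR_card {G : Type} [Group G] [Finite G] (D : Subgroup G) (P : D → Prop) (Q : G → Prop) (h : ∀ d : D, P d ↔ Q d) :
    Nat.card {d : D // P d} = {u : G | u ∈ D ∧ Q u}.ncard := by
  have h1 : {u : G | u ∈ D ∧ Q u} = (fun d : D => (d : G)) '' {d : D | P d} := by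
    ext u
    constructor
    · rintro ⟨h2, h3⟩
      exact ⟨⟨u, h2⟩, (h ⟨u, h2⟩).2 h3, rfl⟩
    · rintro ⟨d, h2, rfl⟩
      exact ⟨d.2, (h d).1 h2⟩
  rw [h1, Set.ncard_image_of_injective _ Subtype.val_injective]
  exact Nat.card_coe_set_eq {d : D | P d}

/-- **BDR** -/
theorem BDR (hWIN : WIN_stmt) (hNUM : NUM_stmt) (hBUX : BUX_stmt) (hLOA : LOA_stmt) (hGM2 : GM2_stmt) (hCNL : CNL_stmt)
    (hLLN : LLN_stmt) (hTPR : FI.TPR_stmt) : BDR_stmt := by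
  intro p M hS hp2 r G _ _ D x θ χ hR hH
  obtain ⟨lo, m, l, hm, hl, hl1, hlX⟩ := BDA_le hLOA hGM2 hCNL hLLN hTPR p M hS hp2 G D x θ χ hR
  refine ⟨l, hl, hl1, ?_⟩
  have hG := BDR_gdt hLOA hS hp2 hR
  obtain ⟨hrk, w, hw⟩ := hH
  let _ := ALT_inst D hG.com
  have hker : Nat.card (powMonoidHom p : D →* D).ker ≤ p ^ r := by
    refine le_trans (le_of_eq ?_) hrk
    refine BDR_card D (fun d => d ∈ (powMonoidHom p : D →* D).ker) (fun u => u ^ p = 1) (fun d => ?_)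
    rw [MonoidHom.mem_ker]
    show d ^ p = 1 ↔ (d : G) ^ p = 1
    rw [Subtype.ext_iff]
    rfl
  have hcop : ¬ p ∣ Nat.card (ALT_rho D (TT M D θ) hG.nor).range := by
    rw [ALT_card]
    exact hG.cop
  have hreg : ∃ u : D, ∀ φ ∈ (ALT_rho D (TT M D θ) hG.nor).range, φ u = u → φ = 1 := by
    refine ⟨⟨w, hw.1⟩, ?_⟩
    rintro _ ⟨t, rfl⟩ h1
    rw [ALT_ker]
    refine hw.2 t t.2 ?_
    have h2 : (t : G) * w * (t : G)⁻¹ = w := congrArg (fun d : D => (d : G)) h1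
    calc (t : G) * w = ((t : G) * w * (t : G)⁻¹) * t := by group
      _ = w * t := by rw [h2]
  obtain ⟨hn, s, hs, u, hu⟩ := hWIN p r hS.pr D hG.pg hker _ hcop hreg
  obtain ⟨K, hK⟩ : ∃ K : Subgroup G, K = (powMonoidHom (p ^ s) : D →* D).range.map D.subtype := ⟨_, rfl⟩
  have hK1 : K ≤ D := by
    rw [hK]
    exact Subgroup.map_subtype_le _
  have hKinv : ∀ t ∈ TT M D θ, ∀ k ∈ K, t * k * t⁻¹ ∈ K := by
    rw [hK]
    rintro t ht _ ⟨_, ⟨v, rfl⟩, rfl⟩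
    refine ⟨(ALT_rho D (TT M D θ) hG.nor ⟨t, ht⟩ v) ^ p ^ s, ⟨ALT_rho D (TT M D θ) hG.nor ⟨t, ht⟩ v, rfl⟩, ?_⟩
    rw [← map_pow]
    rfl
  have hKreg : ∀ t ∈ TT M D θ, t * (u : G) * t⁻¹ * (u : G)⁻¹ ∈ K → t ∈ cz D := by
    intro t ht h1
    by_contra hcz
    have h2 : ALT_rho D (TT M D θ) hG.nor ⟨t, ht⟩ ≠ 1 := fun h0 => hcz ((ALT_ker D (TT M D θ) hG.nor ⟨t, ht⟩).1 h0)
    rw [hK] at h1
    obtain ⟨_, ⟨v, rfl⟩, hv⟩ := h1
    refine hu _ ⟨⟨t, ht⟩, rfl⟩ h2 ⟨v, ?_⟩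
    rw [ALL_del_apply, mul_comm]
    exact Subtype.ext hv
  have hb := hBUX p M hS hp2 G D x θ χ lo K hK1 hKinv u u.2 hKreg m hm
  have hrel : K.relIndex D = (powMonoidHom (p ^ s) : D →* D).range.index := by
    have h1 : K.subgroupOf D = (powMonoidHom (p ^ s) : D →* D).range := by
      rw [hK]
      exact Subgroup.comap_map_eq_self_of_injective D.subtype_injective _
    exact congrArg Subgroup.index h1
  have hiI : iI M D θ = Nat.card (ALT_rho D (TT M D θ) hG.nor).range := (ALT_card _ _ _).symm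
  rw [hrel, hiI] at hb
  have hN := hNUM p r hS.pr D hG.pg hker s _ hs hn
  have hset : Nat.card {d : D // orderOf d ≤ 4 * p * ((powMonoidHom (p ^ s) : D →* D).range.index ^ 2 *
      Nat.card (ALT_rho D (TT M D θ) hG.nor).range)} =
      {u : G | u ∈ D ∧ orderOf u ≤ 4 * p * ((powMonoidHom (p ^ s) : D →* D).range.index ^ 2 *
      Nat.card (ALT_rho D (TT M D θ) hG.nor).range)}.ncard := by
    refine BDR_card D _ _ (fun d => ?_)
    rw [← Subgroup.orderOf_coe]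
  rw [← hset] at hb
  exact (hlX.trans hb).trans hN

end Pool.Agent.LE
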